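import Mathlib
import Pool.Agent.K9h4.Proj

/-!
# The fibres of the projection of a very general cubic hypersurface from a linear subspace

Let `X = (F = 0)` be a very general cubic hypersurface of dimension `n ≥ 3` and let `W` be any linear
subspace of `X`. The projection from `W` makes `X` birational to a quadric bundle over a projective
space. Let `x` be a generic point of `X` over a field `M` which has odd degree over the function
field of `X`. Then every other point of `X` over `M` in the fibre of the projection through `x` (or
with the same image as `x`) is again a generic point of `X`, and `M` has odd degree over its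
function field. For example every rational self-map of `X` over the base of the quadric bundle
is dominant and of odd degree, and more generally every rational map from a variety which has a
dominant map of odd degree to `X` has odd degree if it agrees with this map over the base.

Idea of the proof. The points in question lie on the line through `x` and a point `c` of `W`
over `M`. By the theorems of the starting files (projects LI and E3) the line is not tangent to `X`
at `c`, and if the third point of the chord is not of odd degree, then the generic point of the line
is generic in the projective space and of odd degree over it. Then the quadratic form of the quadric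
bundle has a nontrivial zero over an extension of odd degree of the function field of the base, and
by the theorem of Springer over the function field itself. The pair `(X, W)` moves in a family, and a
count of transcendence degrees shows that for a very general `X` one can specialize from the generic
cubic containing a linear space, whose quadratic form is anisotropic.
-/

set_option autoImplicit false

namespace Pool.Agent.Results.MP_2619d0_ag.ProjectionPrinciple

open MvPolynomial

/-- `F` is the equation of a smooth cubic hypersurface of dimension `n`: a cubic form in `n + 2`
variables whose partial derivatives have no common zero besides the origin -/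
def SmoothCubic {n : ℕ} (F : MvPolynomial (Fin (n + 2)) ℂ) : Prop :=
  F.IsHomogeneous 3 ∧ ∀ z : Fin (n + 2) → ℂ, (∀ i, eval z (pderiv i F) = 0) → z = 0

/-- `x` is a generic point of the hypersurface `F = 0` with coordinates in an extension field `M` of
the complex numbers: `F` vanishes at `x`, and every form vanishing at `x` is divisible by `F` -/
def GenericPoint {n : ℕ} {M : Type} [Field M] [Algebra ℂ M] (F : MvPolynomial (Fin (n + 2)) ℂ)
    (x : Fin (n + 2) → M) : Prop :=
  aeval x F = 0 ∧ ∀ (e : ℕ) (H : MvPolynomial (Fin (n + 2)) ℂ), H.IsHomogeneous e →
    aeval x H = 0 → F ∣ H

/-- the field generated by the ratios of the coordinates of `x`; for a generic point of `X` it is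
the function field of `X` -/
noncomputable def functionField {n : ℕ} {M : Type} [Field M] [Algebra ℂ M] (x : Fin (n + 2) → M) :
    IntermediateField ℂ M :=
  IntermediateField.adjoin ℂ {z | ∃ i j, z = x i / x j}

/-- `x` is a generic point of the hypersurface `F = 0`, and the field `M` has odd degree over the
function field of the hypersurface -/
def OddPoint {n : ℕ} {M : Type} [Field M] [Algebra ℂ M] (F : MvPolynomial (Fin (n + 2)) ℂ)
    (x : Fin (n + 2) → M) : Prop :=
  GenericPoint F x ∧ Odd (Module.finrank (functionField x) M)

/-- the linear span of the vectors `A 0, …, A (r - 1)` is contained in the hypersurface `F = 0` -/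
def SpanInside {n r : ℕ} (F : MvPolynomial (Fin (n + 2)) ℂ) (A : Fin r → Fin (n + 2) → ℂ) : Prop :=
  ∀ a : Fin r → ℂ, eval (fun i => ∑ l, a l * A l i) F = 0

/-- the coefficients of a cubic form -/
noncomputable def coeffs {n : ℕ} (F : MvPolynomial (Fin (n + 2)) ℂ) :
    {m : Fin (n + 2) →₀ ℕ // m.degree = 3} → ℂ := fun m => coeff m.1 F

/-- For every `n ≥ 3` there is a countable set of nonzero polynomials in the coefficients of a
cubic form in `n + 2` variables such that for every smooth cubic hypersurface `X = (F = 0)` outside
their zero sets the following holds. Let `W` be any linear subspace of `X`, spanned by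
`A 0, …, A (r - 1)`, and let `x` and `y` be points of `X` over a field `M` with the same image under
the projection from `W` (`y = s x + ∑ w_l A_l` with `s ≠ 0`). If `x` is a generic point of `X` such
that `M` has odd degree over the function field of `X`, then `y` is a generic point of `X` such that
`M` has odd degree over the function field of `X`. -/
theorem result (n : ℕ) (hn : 3 ≤ n) :
    ∃ Ps : Set (MvPolynomial {m : Fin (n + 2) →₀ ℕ // m.degree = 3} ℂ), Ps.Countable ∧
      (0 : MvPolynomial {m : Fin (n + 2) →₀ ℕ // m.degree = 3} ℂ) ∉ Ps ∧
      ∀ F : MvPolynomial (Fin (n + 2)) ℂ, SmoothCubic F →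
        (∀ P ∈ Ps, eval (coeffs F) P ≠ 0) →
        ∀ (r : ℕ) (A : Fin r → Fin (n + 2) → ℂ), SpanInside F A →
        ∀ (M : Type) [Field M] [Algebra ℂ M] (x y : Fin (n + 2) → M), OddPoint F x →
        aeval y F = 0 →
        (∃ (s : M) (w : Fin r → M), s ≠ 0 ∧
          ∀ i, y i = s * x i + ∑ l, w l * algebraMap ℂ M (A l i)) → OddPoint F y := by
  obtain ⟨Ps, h1, h2, h3⟩ := Pool.Agent.R845.VG.very_general (n + 2) 3
  refine ⟨Ps, h1, h2, fun F hF hP r A hA M _ _ x y hx hyF => ?_⟩
  rintro ⟨s, w, hs, hy⟩
  exact Pool.Agent.K9h4.proj_fibre hn hF.1 hF.2 (h3 F hP) A hA x y hyF hx.1 hx.2 s w hs hy

end Pool.Agent.Results.MP_2619d0_ag.ProjectionPrinciple
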