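import Mathlib
import Pool.Agent.K9h4.Stab

/-!
# Maps given by cubic polynomials in any number of variables to a very general cubic hypersurface

Let `X = (F = 0)` be a very general cubic hypersurface of dimension `n ≥ 3`. A rational map to `X`
from an affine space of any dimension `N` which is given by polynomials of degree at most three has
no rational section, and no rational multisection of odd degree. So there is no birational map from
an affine space `A^N` to a product `X × Y` whose first component is given by cubic polynomials and
for which `Y` has a smooth rational point over an extension of odd degree of the function field of
`X`: a very general cubic hypersurface has no stably birational parametrization by cubics.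

Idea of the proof. A multisection of odd degree is a point `τ` of the affine space over a field `M`
of odd degree over the function field of `X`, such that `G (τ)` is the generic point. If there are at
most `n` variables, then the degree of `M` is a multiple of the degree of a dominant map from the
affine `n`-space to `X`, which is even by the starting files (project E3). If there are more variables
then the homogeneous cubics have a common zero `u` besides the origin. The lines through `u` are mapped
to conics, `G (τ + t u) = t² α + t β + G (τ)` with `α` in the linear subspace `W` of `X` spanned by
the derivatives of `G` at `u`. If `α ≠ 0`, this is a conic through the generic point `x = G (τ)` which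
meets `W` in a point; this is impossible: the chord through `x` and the point `α` of `W` meets `X` in a
third point, which is again generic with `M` of odd degree over its function field (the pair `(X, W)`
is specialized from the generic cubic containing a linear space, as in the starting files), and this
third point lies on the residual line in which the plane of the conic meets `X`, but by the starting
files (project LI) there is no line in `X` through a generic point of odd degree. If `α = 0` then one
gets a line in `X` through `x`, or `β` is a multiple of `x` and the number of variables can be reduced
by one.
-/

set_option autoImplicit false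

namespace Pool.Agent.Results.MP_2619d0_ag.StableCubicMaps

open MvPolynomial

/-- `F` is the equation of a smooth cubic hypersurface of dimension `n`: a cubic form in `n + 2`
variables whose partial derivatives have no common zero besides the origin -/
def SmoothCubic {n : ℕ} (F : MvPolynomial (Fin (n + 2)) ℂ) : Prop :=
  F.IsHomogeneous 3 ∧ ∀ z : Fin (n + 2) → ℂ, (∀ i, eval z (pderiv i F) = 0) → z = 0

/-- `x` is a generic point of the hypersurface `F = 0` with coordinates in an extension field `M` of
the complex numbers: `F` vanishes at `x`, and every form vanishing at `x` is divisible by `F` -/
def GenericPoint {n : ℕ} {M : Type} [Field M] [Algebra ℂ M] (F : MvPolynomial (Fin (n + 2)) ℂ)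
    (x : Fin (n + 2) → M) : Prop :=
  aeval x F = 0 ∧ ∀ (e : ℕ) (H : MvPolynomial (Fin (n + 2)) ℂ), H.IsHomogeneous e →
    aeval x H = 0 → F ∣ H

/-- the field generated by the ratios of the coordinates of `x`; for a generic point of `X` it is
the function field of `X` -/
noncomputable def functionField {n : ℕ} {M : Type} [Field M] [Algebra ℂ M] (x : Fin (n + 2) → M) :
    IntermediateField ℂ M :=
  IntermediateField.adjoin ℂ {z | ∃ i j, z = x i / x j}

/-- the coefficients of a cubic form -/
noncomputable def coeffs {n : ℕ} (F : MvPolynomial (Fin (n + 2)) ℂ) :
    {m : Fin (n + 2) →₀ ℕ // m.degree = 3} → ℂ := fun m => coeff m.1 F

/-- For every `n ≥ 3` there is a countable set of nonzero polynomials in the coefficients of a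
cubic form in `n + 2` variables such that for every smooth cubic hypersurface `X = (F = 0)` outside
their zero sets the following holds. Let `G` be polynomials of degree at most three in any number
`N` of variables which give a rational map from the affine space to `X` (`F` vanishes at `G`). Then
the map has no rational multisection of odd degree: if `τ` is a point of the affine space over a
field `M` whose image `G (τ)` is a generic point of `X`, then the degree of `M` over the function
field of `X` is not an odd number (in particular the map has no rational section). -/
theorem result (n : ℕ) (hn : 3 ≤ n) :
    ∃ Ps : Set (MvPolynomial {m : Fin (n + 2) →₀ ℕ // m.degree = 3} ℂ), Ps.Countable ∧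
      (0 : MvPolynomial {m : Fin (n + 2) →₀ ℕ // m.degree = 3} ℂ) ∉ Ps ∧
      ∀ F : MvPolynomial (Fin (n + 2)) ℂ, SmoothCubic F →
        (∀ P ∈ Ps, eval (coeffs F) P ≠ 0) →
        ∀ (N : ℕ) (G : Fin (n + 2) → MvPolynomial (Fin N) ℂ), (∀ i, (G i).totalDegree ≤ 3) →
        aeval G F = 0 →
        ∀ (M : Type) [Field M] [Algebra ℂ M] (τ : Fin N → M),
        GenericPoint F (fun i => aeval τ (G i)) →
        ¬ Odd (Module.finrank (functionField fun i => aeval τ (G i)) M) := by
  obtain ⟨Ps, h1, h2, h3⟩ := Pool.Agent.R845.VG.very_general (n + 2) 3
  refine ⟨Ps, h1, h2, fun F hF hP N G hG hFG M _ _ τ hτ => ?_⟩
  exact Nat.not_odd_iff_even.2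
    (Pool.Agent.K9h4.stable hn hF.1 hF.2 (h3 F hP) G hG hFG τ hτ)

end Pool.Agent.Results.MP_2619d0_ag.StableCubicMaps
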