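import Mathlib
import Pool.Agent.K9h4.RH.Fin2
import Pool.Agent.K9h4.RH.Sharp2

/-!
# Chords through points of subvarieties of a smooth cubic hypersurface

Let `X = (F = 0)` be a smooth cubic hypersurface of dimension `n`, let `M` be a field which contains
`ℂ` and let `x` be a generic point of `X` over `M` such that the degree of `M` over the function field
of `X` is odd: for `M` the field of rational functions of a variety `Y`, this is a dominant rational
map of odd degree from `Y` to `X`, for example a birational parametrization by a projective space.
Let `c` be another point of `X` over `M` which is a point of a subvariety of dimension `ρ`, that is, the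
ratios of its coordinates generate a field of transcendence degree at most `ρ`: a rational map from
`Y` to some subvariety of `X` of dimension `ρ`. If `n` is large with respect to `ρ`, for example if
`n ≥ 2 ^ (ρ + 1) + 4 * ρ ^ 2`, then the third point in which the line through `x` and `c` meets `X` is
again a generic point such that the degree of `M` over the function field is odd. For `ρ = 1` this
holds for `n ≥ 5`, and for `n = 4` if `X` contains no plane. More generally `c` may be any point over
`M` of a linear subspace of dimension `r`, contained in `X`, which is defined over a subfield of `M` of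
transcendence degree at most `ρ`.

A bound at least as large as `n > 2 * (ρ + r)` is necessary: for all `ρ` and `r` with `ρ + r ≥ 1` there
is a smooth cubic hypersurface of dimension `n = 2 * (ρ + r)` for which the theorem is not true (third
part). It contains two disjoint linear subspaces of dimension `ρ + r`, and the third point of the line
through `x` and its projection `c` to one of them is a point of the other one.

Idea of the proof. By the theorems of the starting files (projects LI, PD and E3) the line is not
tangent to `X` at `c`, and if the third point is not of odd degree then `z = x + τ c` with an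
indeterminate `τ` is generic in the projective space and `M(τ)` has odd degree over the field of
rational functions of the projective space. Call a linear subspace `V` of `X` over a field `K` of
transcendence degree `ρ` good if there is no such point `z` over an extension of `K` and no vector `w`
of `V` over this extension for which `z - w` is on `X`. By induction on `ρ` all linear subspaces of
small dimension are good. For `ρ = 0` this is in the starting files (project N122). For larger `ρ` the
exchange lemma: if `V` and `V'` are hyperplanes of a linear subspace of `X` over `K`, and `V'` is good,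
then `V` is good. The proof counts the points where the pencil `z + λ c` meets `V + z'` modulo two, by
places of the field `E(λ)`: places which are not trivial on `K` lead to linear subspaces over residue
fields of smaller transcendence degree, and there is only one place which is trivial on `K` and
contributes. The same holds for a vector `c` over `K`, not on `X`, such that `F (d + s c) = s ^ 3 F (c)` for
`d` in `V` (then `V` is good). Finally, by the theorem of Lang and Nagata on systems of forms over
fields of transcendence degree `ρ`, each `V` is connected by a chain of such steps with a linear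
subspace which is defined over the complex numbers.
-/

set_option autoImplicit false

namespace Pool.Agent.Results.MP_2619d0_ag.SubvarietyChords

open MvPolynomial

/-- `F` is the equation of a smooth cubic hypersurface of dimension `n`: a cubic form in `n + 2`
variables whose partial derivatives have no common zero besides the origin -/
def SmoothCubic {n : ℕ} (F : MvPolynomial (Fin (n + 2)) ℂ) : Prop :=
  F.IsHomogeneous 3 ∧ ∀ z : Fin (n + 2) → ℂ, (∀ i, eval z (pderiv i F) = 0) → z = 0

/-- `x` is a generic point of the hypersurface `F = 0` with coordinates in an extension field `M` of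
the complex numbers: `F` vanishes at `x`, and every form vanishing at `x` is divisible by `F` -/
def GenericPoint {n : ℕ} {M : Type} [Field M] [Algebra ℂ M] (F : MvPolynomial (Fin (n + 2)) ℂ)
    (x : Fin (n + 2) → M) : Prop :=
  aeval x F = 0 ∧ ∀ (e : ℕ) (H : MvPolynomial (Fin (n + 2)) ℂ), H.IsHomogeneous e →
    aeval x H = 0 → F ∣ H

/-- the field generated by the ratios of the coordinates of `x`; for a generic point of `X` it is
the function field of `X` -/
noncomputable def functionField {n : ℕ} {M : Type} [Field M] [Algebra ℂ M] (x : Fin (n + 2) → M) :
    IntermediateField ℂ M :=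
  IntermediateField.adjoin ℂ {z | ∃ i j, z = x i / x j}

/-- `x` is a generic point of the hypersurface `F = 0`, and the field `M` has odd degree over the
function field of the hypersurface -/
def OddPoint {n : ℕ} {M : Type} [Field M] [Algebra ℂ M] (F : MvPolynomial (Fin (n + 2)) ℂ)
    (x : Fin (n + 2) → M) : Prop :=
  GenericPoint F x ∧ Odd (Module.finrank (functionField x) M)

/-- the hypersurface `F = 0` contains a plane, the projective space of the span of three linearly
independent vectors `A 0`, `A 1`, `A 2` -/
def ContainsPlane {n : ℕ} (F : MvPolynomial (Fin (n + 2)) ℂ) : Prop :=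
  ∃ A : Fin 3 → Fin (n + 2) → ℂ, LinearIndependent ℂ A ∧
    ∀ a : Fin 3 → ℂ, eval (fun i => ∑ l, a l * A l i) F = 0

/-- `c` is a point over `M` of a linear subspace of dimension `r`, contained in the hypersurface
`F = 0`, which is defined over a subfield `K` of `M` of transcendence degree at most `ρ` over `ℂ`:
the subspace is spanned by independent vectors `v 0, …, v r` over `K`, the form `F` vanishes on their
linear combinations, and `c` is a nonzero linear combination of these vectors with coefficients
in `M` -/
def InSubspace {n : ℕ} {M : Type} [Field M] [Algebra ℂ M] (F : MvPolynomial (Fin (n + 2)) ℂ)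
    (ρ r : ℕ) (c : Fin (n + 2) → M) : Prop :=
  ∃ (K : IntermediateField ℂ M) (v : Fin (r + 1) → Fin (n + 2) → K) (t : Fin (r + 1) → M),
    Algebra.trdeg ℂ K ≤ (ρ : Cardinal) ∧ LinearIndependent K v ∧
    (∀ a : Fin (r + 1) → K, aeval (fun i => ∑ l, a l * v l i) F = 0) ∧ c ≠ 0 ∧
    ∀ i, c i = ∑ l, t l * (v l i : M)

/-- the dimension `n` is large with respect to `ρ` and `r` -/
def Large (n ρ r : ℕ) : Prop :=
  ρ + r + 1 < n ∧ (r + 1) * (r + 4) / 2 ≤ n + 1 ∧
    ∀ j < ρ, (r + j + 1) * (3 * (r + j) + 8) / 2 + 2 * (r + j + 1) * 2 ^ (ρ - j) ≤ n + 1

/-- (1) Let `X = (F = 0)` be a smooth cubic hypersurface of dimension `n`, and let `ρ` and `r` be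
numbers. Suppose that `n` is large with respect to `ρ` and `r`, which is the case if
`n ≥ 2 * (r + 1) * 2 ^ ρ + 4 * (ρ + r) ^ 2`; or that `ρ = 1`, `r = 0` and either `n ≥ 5`, or `n = 4` and
`X` contains no plane. Let `x` be a generic point of `X` over a field `M` such that `M` has odd degree
over the function field of `X`, and let `c` be a point over `M` of a linear subspace of dimension `r`,
contained in `X`, which is defined over a subfield of `M` of transcendence degree at most `ρ`. Then every
point `s x + t c`, `s ≠ 0`, of the line through `x` and `c` which lies on `X` is again a generic point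
of `X` such that `M` has odd degree over its function field.

(2) For `r = 0` these `c` are all points of `X` over `M` such that the ratios of the coordinates generate
a field of transcendence degree at most `ρ`, the points of subvarieties of dimension `ρ`.

(3) For all `ρ` and `r` with `ρ + r ≥ 1` there is a smooth cubic hypersurface `X` of dimension
`n = 2 * (ρ + r)` for which (1) is not true: there are a field `M`, a generic point `x` of `X` over `M`
such that `M` has odd degree over the function field, and a point `c` over `M` of a linear subspace of
dimension `r`, contained in `X`, which is defined over a subfield of `M` of transcendence degree at most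
`ρ`, for which the third point `x - c` of the line through `x` and `c` is on `X` but is not a generic
point of `X`. -/
theorem result :
    (∀ (n : ℕ) (F : MvPolynomial (Fin (n + 2)) ℂ), SmoothCubic F →
      ∀ (M : Type) [Field M] [Algebra ℂ M] (ρ : ℕ),
      (∀ r : ℕ, (Large n ρ r ∨ 2 * (r + 1) * 2 ^ ρ + 4 * (ρ + r) ^ 2 ≤ n ∨
          (ρ = 1 ∧ r = 0 ∧ 4 ≤ n ∧ (n = 4 → ¬ ContainsPlane F))) →
        ∀ x c : Fin (n + 2) → M, OddPoint F x → InSubspace F ρ r c →
          ∀ s t : M, s ≠ 0 → aeval (fun i => s * x i + t * c i) F = 0 →
            OddPoint F (fun i => s * x i + t * c i)) ∧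
      (∀ c : Fin (n + 2) → M, c ≠ 0 → aeval c F = 0 →
        Algebra.trdeg ℂ (functionField c) ≤ (ρ : Cardinal) → InSubspace F ρ 0 c)) ∧
    (∀ ρ r : ℕ, 1 ≤ ρ + r → ∃ F : MvPolynomial (Fin (2 * (ρ + r) + 2)) ℂ, SmoothCubic F ∧
      ∃ (M : Type) (_ : Field M) (_ : Algebra ℂ M) (x c : Fin (2 * (ρ + r) + 2) → M),
        OddPoint F x ∧ InSubspace F ρ r c ∧ (fun i => x i - c i) ≠ 0 ∧
        aeval (fun i => x i - c i) F = 0 ∧ ¬ GenericPoint F (fun i => x i - c i)) := by
  refine ⟨fun n F hF M _ _ ρ => ⟨?_, fun c hc hcF htr =>
    Pool.Agent.K9h4.RH.in_zero ρ hF.1 c hc hcF htr⟩, fun ρ r hρ =>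
    ⟨Pool.Agent.K9h4.RH.Fs (ρ + r), ⟨Pool.Agent.K9h4.RH.Fs_hom _, Pool.Agent.K9h4.RH.Fs_sm _⟩,
      Pool.Agent.K9h4.RH.sharp_chord' ρ r hρ⟩⟩
  rintro r hn x c hx ⟨K, v, t, hK, hv, hvF, hc, hct⟩ s t' hs hst
  have hcs : Pool.Agent.K9h4.RH.Cs F ρ r := by
    rcases hn with h | h | ⟨h1, h2, h3, h4⟩
    · exact Or.inr h
    · exact Or.inr (Pool.Agent.K9h4.RH.num_of_le n ρ r h)
    · exact Or.inl ⟨h1, h2, h3, fun h5 A hA hAF => h4 h5 ⟨A, hA, hAF⟩⟩
  have hc' : c = Pool.Agent.K9h4.RH.lc v t := funext hct
  subst hc'
  exact Pool.Agent.K9h4.RH.sub_chord ρ r hcs hF.1 hF.2 K hK v hv hvF t x hx.1 hx.2 hc s t' hs hst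

end Pool.Agent.Results.MP_2619d0_ag.SubvarietyChords
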