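import Mathlib
import Pool.Agent.K9h4.RH.Fin2
import Pool.Agent.K9h4.RH.Sharp

/-!
# Quadratic families of points with a point of a subvariety on a smooth cubic hypersurface

Let `X = (F = 0)` be a smooth cubic hypersurface of dimension `n`, and let `M` be a field which
contains `ℂ`. Let `Q` be polynomials of degree at most two in any number of variables over `M` all of
whose values are on `X`. Let `n` be large with respect to `ρ`, for example `n ≥ 2 ^ (ρ + 1) + 4 * ρ ^ 2`, or
`ρ = 1` and `n ≥ 5`, or `ρ = 1`, `n = 4` and `X` contains no plane. If one of the values is a point of a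
subvariety of dimension `ρ` (the ratios of its coordinates generate a field of transcendence degree at
most `ρ` over `ℂ`) then no value is a generic point of `X` such that `M` has odd degree over the
function field of `X`.

For example there is no dominant rational map of odd degree (in particular no birational map) from an
`n`-dimensional projective space to `X` whose coordinates have total degree at most two in `n - ρ` of
the `n` parameters, with arbitrary rational functions of the last `ρ` parameters as coefficients; the
same holds with any field of transcendence degree `ρ` in place of the functions of the last `ρ`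
parameters, for any number of variables and for multisections of odd degree (third part). The first part
also excludes families of conics with a point of a fixed subvariety of dimension `ρ` of `X` through the
general point of `X`, if the number of these conics is odd.

A bound at least as large as `n > 2 * ρ` is necessary: for every `ρ ≥ 1` there is a smooth cubic
hypersurface of dimension `n = 2 * ρ` with such a parametrization (fourth part). It contains two disjoint
linear subspaces of dimension `ρ`, and the lines which join a fixed point of one of them with the points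
of the other one meet `X` in a third point with quadratic coordinates.

Idea of the proof. The line through the two points gives a conic over `M` in `X` through the generic
point `x` and the point `c` of a subvariety. The plane of the conic meets `X` in the conic and a
residual line, and the third point of the chord through `x` and `c` lies on this line. By the theorem on
chords through points of subvarieties (hand-in SubvarietyChords) this third point is a generic point
such that `M` has odd degree over its function field, but no line in `X` passes through such a point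
(starting files, project LI).
-/

set_option autoImplicit false

namespace Pool.Agent.Results.MP_2619d0_ag.SubvarietyFamilies

open MvPolynomial

/-- `F` is the equation of a smooth cubic hypersurface of dimension `n`: a cubic form in `n + 2`
variables whose partial derivatives have no common zero besides the origin -/
def SmoothCubic {n : ℕ} (F : MvPolynomial (Fin (n + 2)) ℂ) : Prop :=
  F.IsHomogeneous 3 ∧ ∀ z : Fin (n + 2) → ℂ, (∀ i, eval z (pderiv i F) = 0) → z = 0

/-- `x` is a generic point of the hypersurface `F = 0` with coordinates in an extension field `M` of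
the complex numbers: `F` vanishes at `x`, and every form vanishing at `x` is divisible by `F` -/
def GenericPoint {n : ℕ} {M : Type} [Field M] [Algebra ℂ M] (F : MvPolynomial (Fin (n + 2)) ℂ)
    (x : Fin (n + 2) → M) : Prop :=
  aeval x F = 0 ∧ ∀ (e : ℕ) (H : MvPolynomial (Fin (n + 2)) ℂ), H.IsHomogeneous e →
    aeval x H = 0 → F ∣ H

/-- the field generated by the ratios of the coordinates of `x`; for a generic point of `X` it is
the function field of `X` -/
noncomputable def functionField {n : ℕ} {M : Type} [Field M] [Algebra ℂ M] (x : Fin (n + 2) → M) :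
    IntermediateField ℂ M :=
  IntermediateField.adjoin ℂ {z | ∃ i j, z = x i / x j}

/-- `x` is a generic point of the hypersurface `F = 0`, and the field `M` has odd degree over the
function field of the hypersurface -/
def OddPoint {n : ℕ} {M : Type} [Field M] [Algebra ℂ M] (F : MvPolynomial (Fin (n + 2)) ℂ)
    (x : Fin (n + 2) → M) : Prop :=
  GenericPoint F x ∧ Odd (Module.finrank (functionField x) M)

/-- the hypersurface `F = 0` contains a plane, the projective space of the span of three linearly
independent vectors `A 0`, `A 1`, `A 2` -/
def ContainsPlane {n : ℕ} (F : MvPolynomial (Fin (n + 2)) ℂ) : Prop :=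
  ∃ A : Fin 3 → Fin (n + 2) → ℂ, LinearIndependent ℂ A ∧
    ∀ a : Fin 3 → ℂ, eval (fun i => ∑ l, a l * A l i) F = 0

/-- `c` is a point over `M` of a linear subspace of dimension `r`, contained in the hypersurface
`F = 0`, which is defined over a subfield `K` of `M` of transcendence degree at most `ρ` over `ℂ`:
the subspace is spanned by independent vectors `v 0, …, v r` over `K`, the form `F` vanishes on their
linear combinations, and `c` is a nonzero linear combination of these vectors with coefficients
in `M` -/
def InSubspace {n : ℕ} {M : Type} [Field M] [Algebra ℂ M] (F : MvPolynomial (Fin (n + 2)) ℂ)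
    (ρ r : ℕ) (c : Fin (n + 2) → M) : Prop :=
  ∃ (K : IntermediateField ℂ M) (v : Fin (r + 1) → Fin (n + 2) → K) (t : Fin (r + 1) → M),
    Algebra.trdeg ℂ K ≤ (ρ : Cardinal) ∧ LinearIndependent K v ∧
    (∀ a : Fin (r + 1) → K, aeval (fun i => ∑ l, a l * v l i) F = 0) ∧ c ≠ 0 ∧
    ∀ i, c i = ∑ l, t l * (v l i : M)

/-- the dimension `n` is large with respect to `ρ` and `r`, or the case of curves -/
def Large {n : ℕ} (F : MvPolynomial (Fin (n + 2)) ℂ) (ρ r : ℕ) : Prop :=
  (ρ + r + 1 < n ∧ (r + 1) * (r + 4) / 2 ≤ n + 1 ∧
    ∀ j < ρ, (r + j + 1) * (3 * (r + j) + 8) / 2 + 2 * (r + j + 1) * 2 ^ (ρ - j) ≤ n + 1) ∨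
  2 * (r + 1) * 2 ^ ρ + 4 * (ρ + r) ^ 2 ≤ n ∨
  (ρ = 1 ∧ r = 0 ∧ 4 ≤ n ∧ (n = 4 → ¬ ContainsPlane F))

/-- `Q` are polynomials of degree at most two in `N` variables over `L` which give a rational map from
the affine space to the hypersurface `F = 0` -/
def QuadMap {n N : ℕ} {L : Type} [Field L] [Algebra ℂ L] (F : MvPolynomial (Fin (n + 2)) ℂ)
    (Q : Fin (n + 2) → MvPolynomial (Fin N) L) : Prop :=
  (∀ i, (Q i).totalDegree ≤ 2) ∧ aeval Q F = 0

theorem cs_of_large {n : ℕ} (F : MvPolynomial (Fin (n + 2)) ℂ) (ρ r : ℕ) (h : Large F ρ r) :
    Pool.Agent.K9h4.RH.Cs F ρ r := by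
  rcases h with h | h | ⟨h1, h2, h3, h4⟩
  · exact Or.inr h
  · exact Or.inr (Pool.Agent.K9h4.RH.num_of_le n ρ r h)
  · exact Or.inl ⟨h1, h2, h3, fun h5 A hA hAF => h4 h5 ⟨A, hA, hAF⟩⟩

/-- Let `X = (F = 0)` be a smooth cubic hypersurface of dimension `n`, let `M` be an extension field of
`ℂ` and let `ρ` be a number.

(1) Suppose that `n` is large with respect to `ρ` and `r`, for example
`n ≥ 2 * (r + 1) * 2 ^ ρ + 4 * (ρ + r) ^ 2`; or that `ρ = 1`, `r = 0` and either `n ≥ 5`, or `n = 4` and `X`
contains no plane. Let `Q` be polynomials of degree at most two in `N` variables over `M` which give a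
rational map from the affine space to `X` (`F` vanishes at `Q`). If `Q (u)` is, for some point `u`, a
point over `M` of a linear subspace of dimension `r`, contained in `X`, which is defined over a subfield
of `M` of transcendence degree at most `ρ`, then there is no point `w` for which `Q (w)` is a generic
point of `X` such that `M` has odd degree over the function field of `X`.

(2) The assumption on `Q (u)` is satisfied with `r = 0` if `Q (u)` is a point of a subvariety of
dimension `ρ` (not all its coordinates are zero, and their ratios generate a field of transcendence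
degree at most `ρ` over `ℂ`).

(3) In particular, if the coefficients of the polynomials `Q` are in a subfield `L` of `M` of
transcendence degree at most `ρ` over `ℂ`, then (for `n` large with respect to `ρ` and `0`) no value
`Q (w)` over `M` is a generic point of `X` such that `M` has odd degree over the function field of `X`.

(4) For every `ρ ≥ 1` there is a smooth cubic hypersurface `X` of dimension `n = 2 * ρ` for which (3) is
not true: there are `M`, a subfield `L` of transcendence degree at most `ρ`, polynomials `Q` of degree at
most two in `ρ + 1` variables over `L` which give a rational map to `X`, and a point `w` over `M` such that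
`Q (w)` is a generic point of `X` and `M` has odd degree over its function field. -/
theorem result :
    (∀ (n : ℕ) (F : MvPolynomial (Fin (n + 2)) ℂ), SmoothCubic F →
      ∀ (M : Type) [Field M] [Algebra ℂ M] (ρ N : ℕ),
      (∀ r : ℕ, Large F ρ r → ∀ Q : Fin (n + 2) → MvPolynomial (Fin N) M, QuadMap F Q →
        ∀ u w : Fin N → M, InSubspace F ρ r (fun i => eval u (Q i)) →
          ¬ OddPoint F (fun i => eval w (Q i))) ∧
      (∀ c : Fin (n + 2) → M, c ≠ 0 → aeval c F = 0 →
        Algebra.trdeg ℂ (functionField c) ≤ (ρ : Cardinal) → InSubspace F ρ 0 c) ∧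
      (Large F ρ 0 → ∀ L : IntermediateField ℂ M, Algebra.trdeg ℂ L ≤ (ρ : Cardinal) →
        ∀ Q : Fin (n + 2) → MvPolynomial (Fin N) L, QuadMap F Q →
        ∀ w : Fin N → M, ¬ OddPoint F (fun i => aeval w (Q i)))) ∧
    (∀ ρ : ℕ, 1 ≤ ρ → ∃ F : MvPolynomial (Fin (2 * ρ + 2)) ℂ, SmoothCubic F ∧
      ∃ (M : Type) (_ : Field M) (_ : Algebra ℂ M) (L : IntermediateField ℂ M)
        (Q : Fin (2 * ρ + 2) → MvPolynomial (Fin (ρ + 1)) L) (w : Fin (ρ + 1) → M),
        Algebra.trdeg ℂ L ≤ (ρ : Cardinal) ∧ QuadMap F Q ∧ OddPoint F (fun i => aeval w (Q i))) := by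
  refine ⟨fun n F hF M _ _ ρ N => ⟨?_, fun c hc hcF htr =>
    Pool.Agent.K9h4.RH.in_zero ρ hF.1 c hc hcF htr,
    fun hn L hL Q hQ w hx => Pool.Agent.K9h4.RH.sub_curve ρ (cs_of_large F ρ 0 hn) hF.1 hF.2 L hL
      Q hQ.1 hQ.2 w hx.1 hx.2⟩, fun ρ hρ => ?_⟩
  · rintro r hn Q ⟨hQ, hQF⟩ u w ⟨K, v, t, hK, hv, hvF, hc, hct⟩ hx
    exact Pool.Agent.K9h4.RH.sub_family ρ r (cs_of_large F ρ r hn) hF.1 hF.2 K hK v hv hvF t Q hQ hQF
      u w hc (funext hct) hx.1 hx.2
  · obtain ⟨M, _, _, L, Q, w, h1, h2, h3, h4⟩ := Pool.Agent.K9h4.RH.sharp_family ρ hρ
    exact ⟨Pool.Agent.K9h4.RH.Fs ρ, ⟨Pool.Agent.K9h4.RH.Fs_hom ρ, Pool.Agent.K9h4.RH.Fs_sm ρ⟩,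
      M, inferInstance, inferInstance, L, Q, w, h1, ⟨h2, h3⟩, h4⟩

end Pool.Agent.Results.MP_2619d0_ag.SubvarietyFamilies
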